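import Pool.Agent.H83.W35.ASY5
import Pool.Graph.R_pool_sql_team_seeded_63374d34.N334.W.AR

/-! The archimedean bound: assembly. -/

open Polynomial Pool.Agent.H337R2 Filter Topology

namespace Pool.Agent.H83.W35

open Pool.Agent.N334.W

noncomputable section

/-- the bound `B` -/
def AR_y (s h ν : ℕ) (K' : ℝ) : ℝ :=
  ((10 * ν - 1 : ℕ) * Real.log (K' * r0 (10 * ν) ^ (2 * h - 5 * s) * ((20 * ν).factorial : ℝ) ^ (5 * s) *
      (Mg ν)⁻¹ ^ s) +
    2 * s * Real.log (Dcl (40 * ν) (8 * ν + 3) (10 * ν - 1))) / 2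

lemma Dcl_pos {ν : ℕ} (hν : 2 ≤ ν) : 0 < Dcl (40 * ν) (8 * ν + 3) (10 * ν - 1) := by
  unfold Dcl
  apply Finset.prod_pos
  intro i hi
  rw [Finset.mem_range] at hi
  have h1 : 0 < ∏ j ∈ Finset.range (10 * ν - 1), (((40 * ν : ℕ) : ℝ) - 2 * ((8 * ν + 3 : ℕ) : ℝ) - i - j) := by
    apply Finset.prod_pos
    intro j hj
    rw [Finset.mem_range] at hj
    have h2 : (i : ℝ) + j + 2 * ((8 * ν + 3 : ℕ) : ℝ) < ((40 * ν : ℕ) : ℝ) := by
      exact_mod_cast (by omega : i + j + 2 * (8 * ν + 3) < 40 * ν)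
    linarith
  positivity

lemma Mg_pos {ν : ℕ} (hν : 2 ≤ ν) : 0 < Mg ν := by
  have : (0 : ℝ) < ν := by exact_mod_cast (by omega : 0 < ν)
  unfold Mg
  positivity

lemma AR_bound (hLF : S_LF) (hOM1 : S_OM1) (hARCH : S_ARCH) (hCL : S_CL) (b h ν : ℕ) (K K' : ℝ)
    (hK : 0 < K) (hK' : 0 < K')
    (hom : ∀ n t k : ℕ, 1 ≤ n → k ≤ b →
      |((om b h n (t : ℚ) k : ℚ) : ℝ)| ≤ K * Rt h n t * (2 * (t : ℝ) + 4 * n) ^ k)
    (hdom : ∀ ν t : ℕ, 2 ≤ ν → (K * Rt h (10 * ν) t * ((t : ℝ) + 40 * ν) ^ (6 * (b + 1) + 2)) ^ 2 ≤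
      K' * r0 (10 * ν) ^ (2 * h - 5 * (b + 1)) * ((20 * ν).factorial : ℝ) ^ (5 * (b + 1)) *
        (Mg ν)⁻¹ ^ (b + 1) * wcl (40 * ν) (8 * ν + 3) t ^ (2 * (b + 1)))
    (hb : Even b) (hb2 : 2 ≤ b) (hh : Even h) (hh2 : 2 * (b + 1) ≤ h) (hν : 2 ≤ ν)
    (u : ℕ → ℚ) (hu : ∀ e, Odd e → b + 3 ≤ e → e < b + h → ((u e : ℚ) : ℝ) = zr e) :
    |((DET b h (10 * ν) u ((b + 1) * (10 * ν - 1)) : ℚ) : ℝ)| ≤
      (36 ^ (b + 1) * ((b + 1 : ℕ) : ℝ) ^ 2) ^ ((b + 1) * (10 * ν - 1)) *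
      Real.exp (2 * (((b + 1) * (10 * ν - 1) : ℕ) : ℝ) * ((b + 1 : ℕ) : ℝ) *
        (1 + Real.log (((b + 1) * (10 * ν - 1) : ℕ) : ℝ))) *
      Real.exp (AR_y (b + 1) h ν K') ^ (b + 1) := by
  have ht := AR_tendsto hLF hOM1 b h (10 * ν) ((b + 1) * (10 * ν - 1)) hb hb2 hh (by omega) u hu (by
    have h1 : 4 * ((b + 1) * (10 * ν - 1)) ≤ 4 * ((b + 1) * (10 * ν)) :=
      Nat.mul_le_mul_left _ (Nat.mul_le_mul_left _ (by omega))
    have h2 : 2 * (b + 1) * (2 * (10 * ν) + 1) ≤ h * (2 * (10 * ν) + 1) := Nat.mul_le_mul_right _ hh2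
    nlinarith)
  refine le_of_tendsto ht.abs (Eventually.of_forall fun T => ?_)
  have hc : 4 * (10 * ν) = 40 * ν := by ring
  have hMp := Mg_pos hν
  have hQ : 0 < K' * r0 (10 * ν) ^ (2 * h - 5 * (b + 1)) * ((20 * ν).factorial : ℝ) ^ (5 * (b + 1)) *
      (Mg ν)⁻¹ ^ (b + 1) := by
    have := r0_pos (10 * ν)
    positivity
  have hD := Dcl_pos hν
  have h5 : Real.exp (AR_y (b + 1) h ν K') ^ 2 =
      (K' * r0 (10 * ν) ^ (2 * h - 5 * (b + 1)) * ((20 * ν).factorial : ℝ) ^ (5 * (b + 1)) *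
        (Mg ν)⁻¹ ^ (b + 1)) ^ (10 * ν - 1) *
        Dcl (40 * ν) (8 * ν + 3) (10 * ν - 1) ^ (2 * (b + 1)) := by
    rw [← Real.exp_nat_mul]
    have : ((2 : ℕ) : ℝ) * AR_y (b + 1) h ν K' = (10 * ν - 1 : ℕ) *
        Real.log (K' * r0 (10 * ν) ^ (2 * h - 5 * (b + 1)) * ((20 * ν).factorial : ℝ) ^ (5 * (b + 1)) *
          (Mg ν)⁻¹ ^ (b + 1)) +
        ((2 * (b + 1) : ℕ) : ℝ) * Real.log (Dcl (40 * ν) (8 * ν + 3) (10 * ν - 1)) := by
      unfold AR_y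
      push_cast
      ring
    rw [this, Real.exp_add, Real.exp_nat_mul, Real.exp_nat_mul, Real.exp_log hQ, Real.exp_log hD]
  have key := hARCH (b + 1) (4 * (10 * ν)) (10 * ν - 1) T (fun t => K * Rt h (10 * ν) t)
    (fun t k => ((om b h (10 * ν) (t : ℚ) k : ℚ) : ℝ)) (Real.exp (AR_y (b + 1) h ν K')) (by omega) (by omega)
    (by omega) (fun t => mul_nonneg hK.le (Rt_nonneg _ _ _)) (fun t k hk => by
      have := hom (10 * ν) t k (by omega) (by omega)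
      simpa using this) (Real.exp_pos _).le (fun A hA => by
      have hWn : ∀ a : ℕ, 0 ≤ K * Rt h (10 * ν) a * ((a : ℝ) + 40 * ν) ^ (6 * (b + 1) + 2) := by
        intro a
        have := Rt_nonneg h (10 * ν) a
        positivity
      have h6 : (∏ a ∈ A, K * Rt h (10 * ν) a * ((a : ℝ) + ((4 * (10 * ν) : ℕ) : ℝ)) ^ (6 * (b + 1) + 2)) =
          ∏ a ∈ A, K * Rt h (10 * ν) a * ((a : ℝ) + 40 * ν) ^ (6 * (b + 1) + 2) := by
        apply Finset.prod_congr rfl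
        intro a _
        rw [hc]
        push_cast
        ring
      rw [h6, hc]
      have h7 : 0 ≤ (∏ a ∈ A, K * Rt h (10 * ν) a * ((a : ℝ) + 40 * ν) ^ (6 * (b + 1) + 2)) *
          vd (40 * ν) A ^ (2 * (b + 1)) :=
        mul_nonneg (Finset.prod_nonneg fun a _ => hWn a) (pow_nonneg (vd_nonneg _ _) _)
      refine le_of_pow_le_pow_left₀ (n := 2) (by norm_num) (Real.exp_pos _).le ?_
      rw [h5, mul_pow, ← Finset.prod_pow]
      calc (∏ a ∈ A, (K * Rt h (10 * ν) a * ((a : ℝ) + 40 * ν) ^ (6 * (b + 1) + 2)) ^ 2) *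
            (vd (40 * ν) A ^ (2 * (b + 1))) ^ 2
          ≤ (∏ a ∈ A, (K' * r0 (10 * ν) ^ (2 * h - 5 * (b + 1)) * ((20 * ν).factorial : ℝ) ^ (5 * (b + 1)) *
              (Mg ν)⁻¹ ^ (b + 1) * wcl (40 * ν) (8 * ν + 3) a ^ (2 * (b + 1)))) *
              (vd (40 * ν) A ^ (2 * (b + 1))) ^ 2 := by
            apply mul_le_mul_of_nonneg_right _ (pow_nonneg (pow_nonneg (vd_nonneg _ _) _) _)
            exact Finset.prod_le_prod (fun a _ => pow_nonneg (hWn a) _) fun a _ => hdom ν a hν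
        _ = (K' * r0 (10 * ν) ^ (2 * h - 5 * (b + 1)) * ((20 * ν).factorial : ℝ) ^ (5 * (b + 1)) *
              (Mg ν)⁻¹ ^ (b + 1)) ^ (10 * ν - 1) *
              ((∏ a ∈ A, wcl (40 * ν) (8 * ν + 3) a) * vd (40 * ν) A ^ 2) ^ (2 * (b + 1)) := by
            rw [Finset.prod_mul_distrib, Finset.prod_const, hA, Finset.prod_pow, mul_pow, ← pow_mul, ← pow_mul]
            ring
        _ ≤ _ := by
            apply mul_le_mul_of_nonneg_left _ (pow_nonneg hQ.le _)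
            apply pow_le_pow_left₀
            · exact mul_nonneg (Finset.prod_nonneg fun a _ => wcl_nonneg _ _ _) (pow_nonneg (vd_nonneg _ _) _)
            · exact hCL (40 * ν) (8 * ν + 3) (10 * ν - 1) A (by omega) (by omega) hA)
  exact key

theorem AR5_of (hLF : S_LF) (hOM1 : S_OM1) (hOM2 : S_OM2) (hARCH : S_ARCH) (hCL : S_CL) (hDOM : S_DOM5)
    (hASY : S_ASY5) (hR0 : S_R0) : S_AR5 := by
  intro b h hb hb2 hh h13 ε hε
  obtain ⟨K, hK, hom⟩ := hOM2 b h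
  obtain ⟨K', hK', hdom⟩ := hDOM (b + 1) h K (by omega) h13 hK
  obtain ⟨s, hs⟩ : ∃ s : ℝ, s = (b : ℝ) + 1 := ⟨_, rfl⟩
  have hs1 : 1 ≤ s := by rw [hs]; linarith [(Nat.cast_nonneg b : (0 : ℝ) ≤ b)]
  obtain ⟨ρ, hρ⟩ : ∃ ρ : ℝ, ρ = 3 * Real.log 3 - 2 * Real.log 2 := ⟨_, rfl⟩
  obtain ⟨D, hD⟩ : ∃ D : ℝ, D = s * (2 * h - 5 * s) / 2 := ⟨_, rfl⟩
  have hD0 : 0 ≤ D := by
    rw [hD]
    have : (5 * (s : ℝ)) ≤ 2 * h := by rw [hs]; exact_mod_cast h13
    apply div_nonneg _ (by norm_num)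
    apply mul_nonneg (by linarith)
    linarith
  have hρ0 : 0 ≤ ρ := by
    rw [hρ]
    have h1 : Real.log 2 ≤ Real.log 3 := Real.log_le_log (by norm_num) (by norm_num)
    have h2 : 0 ≤ Real.log 3 := Real.log_nonneg (by norm_num)
    linarith
  obtain ⟨C1, hC1⟩ : ∃ C1 : ℝ, C1 = Real.log (36 ^ (b + 1) * ((b + 1 : ℕ) : ℝ) ^ 2) := ⟨_, rfl⟩
  have hC1' : 0 ≤ C1 := by
    rw [hC1]
    apply Real.log_nonneg
    have h1 : (1 : ℝ) ≤ 36 ^ (b + 1) := one_le_pow₀ (by norm_num)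
    have h2 : (1 : ℝ) ≤ ((b + 1 : ℕ) : ℝ) ^ 2 := one_le_pow₀ (by push_cast; linarith [(Nat.cast_nonneg b : (0 : ℝ) ≤ b)])
    nlinarith
  have e1 := hASY (ε / (4 * s ^ 2)) (by positivity)
  have e2 : ∀ᶠ ν : ℕ in atTop, Real.log (r0 (10 * ν)) ≤
      (10 * (ν : ℝ)) * (-ρ + ε / (4 * (D + 1))) := by
    have h1 := hR0 (ε / (4 * (D + 1))) (by positivity)
    have h2 : Tendsto (fun ν : ℕ => 10 * ν) atTop atTop := tendsto_id.const_mul_atTop' (by norm_num)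
    have h3 := h2.eventually h1
    filter_upwards [h3] with ν h4
    rw [hρ]
    push_cast at h4
    exact h4
  have e3 := AR_log_small (s * C1 + 2 * s ^ 2 * (1 + s) + s / 2 * |Real.log K'| + D * ρ) (2 * s ^ 2) (ε / 4)
    (by positivity)
  filter_upwards [e1, e2, e3, eventually_ge_atTop 2] with ν h1 h2 h3 hν u hu
  have hbd := AR_bound hLF hOM1 hARCH hCL b h ν K K' hK hK' hom hdom hb hb2 hh (by omega) hν u hu
  refine hbd.trans ?_
  obtain ⟨n, hn⟩ : ∃ n : ℝ, n = 10 * (ν : ℝ) := ⟨_, rfl⟩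
  have hn1 : 20 ≤ n := by
    rw [hn]
    have : (2 : ℝ) ≤ ν := by exact_mod_cast hν
    linarith
  have hN : ((10 * ν - 1 : ℕ) : ℝ) = n - 1 := by
    rw [hn, Nat.cast_sub (by omega)]
    push_cast
    ring
  obtain ⟨m, hm⟩ : ∃ m : ℝ, m = (((b + 1) * (10 * ν - 1) : ℕ) : ℝ) := ⟨_, rfl⟩
  have hm' : m = s * (n - 1) := by
    rw [hm, Nat.cast_mul, hN, hs]
    push_cast
    ring
  have hm1 : 1 ≤ m := by rw [hm']; nlinarith
  have hs2 : ((b + 1 : ℕ) : ℝ) = s := by rw [hs]; push_cast; ring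
  have hMp := Mg_pos hν
  have hQ : 0 < K' * r0 (10 * ν) ^ (2 * h - 5 * (b + 1)) * ((20 * ν).factorial : ℝ) ^ (5 * (b + 1)) *
      (Mg ν)⁻¹ ^ (b + 1) := by
    have := r0_pos (10 * ν)
    positivity
  have hbase : (0 : ℝ) < 36 ^ (b + 1) * ((b + 1 : ℕ) : ℝ) ^ 2 := by positivity
  rw [← Real.exp_log (pow_pos hbase ((b + 1) * (10 * ν - 1))), Real.log_pow, ← hC1, ← hm, hs2,
    ← Real.exp_nat_mul, hs2, ← Real.exp_add, ← Real.exp_add]
  apply Real.exp_le_exp.2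
  have hlogm : Real.log m ≤ s + Real.log n := by
    have h4 : m ≤ s * n := by rw [hm']; nlinarith
    have h5 : Real.log m ≤ Real.log (s * n) := Real.log_le_log (by linarith) h4
    rw [Real.log_mul (by linarith) (by linarith)] at h5
    have h6 := Real.log_le_sub_one_of_pos (by linarith : 0 < s)
    linarith
  have hn0 : 0 ≤ Real.log n := Real.log_nonneg (by linarith)
  -- the main part
  have hy : s * AR_y (b + 1) h ν K' = s / 2 * (n - 1) * Real.log K' + D * ((n - 1) * Real.log (r0 (10 * ν))) +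
      s ^ 2 * (5 / 2 * (n - 1) * Real.log ((20 * ν).factorial : ℝ) - 1 / 2 * (n - 1) * Real.log (Mg ν) +
        Real.log (Dcl (40 * ν) (8 * ν + 3) (10 * ν - 1))) := by
    unfold AR_y
    have hr := r0_pos (10 * ν)
    rw [Real.log_mul (by positivity) (by positivity), Real.log_mul (by positivity) (by positivity),
      Real.log_mul (by positivity) (by positivity), Real.log_pow,
      Real.log_pow, Real.log_pow, Real.log_inv, hN, Nat.cast_sub h13]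
    rw [hD, ← hs2]
    push_cast
    ring
  rw [hy]
  have h1' : s ^ 2 * (5 / 2 * (n - 1) * Real.log ((20 * ν).factorial : ℝ) -
        1 / 2 * (n - 1) * Real.log (Mg ν) +
        Real.log (Dcl (40 * ν) (8 * ν + 3) (10 * ν - 1))) ≤
      n ^ 2 * (s ^ 2 * (2 * Real.log n + a1)) + n ^ 2 * (ε / 4) := by
    rw [← hn] at h1
    have h4 := mul_le_mul_of_nonneg_left h1 (sq_nonneg s)
    have h5 : s ^ 2 * (n ^ 2 * (2 * Real.log n + a1 + ε / (4 * s ^ 2))) =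
        n ^ 2 * (s ^ 2 * (2 * Real.log n + a1)) + n ^ 2 * (ε / 4) := by
      field_simp
    linarith
  have h2' : D * ((n - 1) * Real.log (r0 (10 * ν))) ≤ n ^ 2 * (-(D * ρ)) + n * (D * ρ) + n ^ 2 * (ε / 4) := by
    rw [← hn] at h2
    have h4 : (n - 1) * Real.log (r0 (10 * ν)) ≤ (n - 1) * (n * (-ρ + ε / (4 * (D + 1)))) :=
      mul_le_mul_of_nonneg_left h2 (by linarith)
    have h5 := mul_le_mul_of_nonneg_left h4 hD0
    have h6 : D * (ε / (4 * (D + 1))) ≤ ε / 4 := by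
      rw [mul_div_assoc', div_le_div_iff₀ (by positivity) (by norm_num)]
      nlinarith
    have h7 : D * ((n - 1) * (n * (-ρ + ε / (4 * (D + 1))))) =
        n ^ 2 * (-(D * ρ)) + n * (D * ρ) + (n - 1) * n * (D * (ε / (4 * (D + 1)))) := by ring
    have h8 : (n - 1) * n * (D * (ε / (4 * (D + 1)))) ≤ n ^ 2 * (ε / 4) := by
      have h9 : (n - 1) * n * (D * (ε / (4 * (D + 1)))) ≤ (n - 1) * n * (ε / 4) :=
        mul_le_mul_of_nonneg_left h6 (by nlinarith)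
      nlinarith
    linarith
  have h3' : m * C1 + 2 * m * s * (1 + Real.log m) + s / 2 * (n - 1) * Real.log K' + n * (D * ρ) ≤
      n ^ 2 * (ε / 4) := by
    rw [← hn] at h3
    have h4 : m ≤ s * n := by rw [hm']; nlinarith
    have h5 : m * C1 ≤ n * (s * C1) := by nlinarith
    have h6 : 2 * m * s * (1 + Real.log m) ≤ n * (2 * s ^ 2 * (1 + s) + 2 * s ^ 2 * Real.log n) := by
      have h7 : 2 * m * s ≤ 2 * s ^ 2 * n := by nlinarith
      have h8 : 1 + Real.log m ≤ 1 + s + Real.log n := by linarith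
      have h9 : 0 ≤ 1 + s + Real.log n := by linarith
      calc 2 * m * s * (1 + Real.log m) ≤ 2 * m * s * (1 + s + Real.log n) :=
            mul_le_mul_of_nonneg_left h8 (by nlinarith)
        _ ≤ 2 * s ^ 2 * n * (1 + s + Real.log n) := mul_le_mul_of_nonneg_right h7 h9
        _ = _ := by ring
    have h10 : s / 2 * (n - 1) * Real.log K' ≤ n * (s / 2 * |Real.log K'|) := by
      have h11 := le_abs_self (Real.log K')
      have h12 : s / 2 * (n - 1) * Real.log K' ≤ s / 2 * (n - 1) * |Real.log K'| :=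
        mul_le_mul_of_nonneg_left h11 (by nlinarith)
      have h13 : s / 2 * (n - 1) * |Real.log K'| ≤ s / 2 * n * |Real.log K'| :=
        mul_le_mul_of_nonneg_right (by nlinarith) (abs_nonneg _)
      linarith
    have h14 := mul_le_mul_of_nonneg_left h3 (by linarith : 0 ≤ n)
    calc m * C1 + 2 * m * s * (1 + Real.log m) + s / 2 * (n - 1) * Real.log K' + n * (D * ρ)
        ≤ n * (s * C1) + n * (2 * s ^ 2 * (1 + s) + 2 * s ^ 2 * Real.log n) + n * (s / 2 * |Real.log K'|) +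
          n * (D * ρ) := add_le_add_left (add_le_add (add_le_add h5 h6) h10) _
      _ = n * (s * C1 + 2 * s ^ 2 * (1 + s) + s / 2 * |Real.log K'| + D * ρ + 2 * s ^ 2 * Real.log n) := by ring
      _ ≤ n * (ε / 4 * n) := h14
      _ = n ^ 2 * (ε / 4) := by ring
  have h4 : n ^ 2 * (-(D * ρ)) = -(n ^ 2 * (D * ρ)) := by ring
  have hfin : (10 * (ν : ℝ)) ^ 2 * (((b : ℝ) + 1) ^ 2 * (2 * Real.log (10 * (ν : ℝ)) + a1) -
        ((b : ℝ) + 1) * (2 * h - 5 * ((b : ℝ) + 1)) / 2 * (3 * Real.log 3 - 2 * Real.log 2) + ε) =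
      n ^ 2 * (s ^ 2 * (2 * Real.log n + a1)) - n ^ 2 * (D * ρ) + n ^ 2 * ε := by
    rw [← hs, ← hn, ← hρ, ← hD]
    ring
  rw [hfin]
  have h15 : 0 ≤ n ^ 2 * (ε / 4) := by positivity
  have h16 : n ^ 2 * ε = n ^ 2 * (ε / 4) + n ^ 2 * (ε / 4) + n ^ 2 * (ε / 4) + n ^ 2 * (ε / 4) := by ring
  linarith

end

end Pool.Agent.H83.W35
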