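import Pool.Agent.H83.W35.DOM5
import Pool.Graph.R_pool_sql_team_seeded_63374d34.N334.W.ASY

/-!
# Size of the classical determinant (short poles)
-/

open Filter Topology

namespace Pool.Agent.H83.W35

open Pool.Agent.N334.W

namespace ASY5_

open Pool.Agent.N334.W.R0_ Pool.Agent.N334.W.ASY_

/-- the logarithm of the determinant -/
lemma log_Dcl (v : ℕ) : Real.log (Dcl (40 * (v + 2)) (8 * (v + 2) + 3) (10 * (v + 2) - 1)) =
    ∑ i ∈ Finset.range (10 * v + 19), (2 * Real.log ((8 * v + 18 + i).factorial : ℝ) -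
      2 * Real.log ((32 * v + 60 - i).factorial : ℝ) + 2 * Real.log (i.factorial : ℝ) -
      Real.log ((24 * v + 42 - i).factorial : ℝ) + Real.log ((14 * v + 23 - i).factorial : ℝ)) := by
  unfold Dcl
  have hN : 10 * (v + 2) - 1 = 10 * v + 19 := by omega
  rw [hN, Real.log_prod]
  · refine Finset.sum_congr rfl fun i hi => ?_
    rw [Finset.mem_range] at hi
    have e1 : 8 * (v + 2) + 3 + i - 1 = 8 * v + 18 + i := by omega
    have e2 : 40 * (v + 2) - (8 * (v + 2) + 3) - i - 1 = 32 * v + 60 - i := by omega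
    rw [e1, e2]
    have e3 : ∏ j ∈ Finset.range (10 * v + 19),
        (((40 * (v + 2) : ℕ) : ℝ) - 2 * ((8 * (v + 2) + 3 : ℕ) : ℝ) - i - j) =
        ∏ j ∈ Finset.range (10 * v + 19), (((24 * v + 42 - i : ℕ) : ℝ) - j) := by
      refine Finset.prod_congr rfl fun j _ => ?_
      rw [Nat.cast_sub (by omega)]
      push_cast
      ring
    rw [e3]
    have hpos : 0 < ∏ j ∈ Finset.range (10 * v + 19), (((24 * v + 42 - i : ℕ) : ℝ) - j) := by
      refine Finset.prod_pos fun j hj => ?_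
      rw [Finset.mem_range] at hj
      have : j < 24 * v + 42 - i := by omega
      have : (j : ℝ) < ((24 * v + 42 - i : ℕ) : ℝ) := by exact_mod_cast this
      linarith
    rw [Real.log_mul (by positivity) (by positivity), Real.log_pow,
      Real.log_div (by positivity) (by positivity), Real.log_div (by positivity) hpos.ne',
      Real.log_pow, desc _ _ (by omega)]
    have e4 : 24 * v + 42 - i - (10 * v + 19) = 14 * v + 23 - i := by omega
    rw [e4]
    push_cast
    ring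
  · intro i hi
    rw [Finset.mem_range] at hi
    have e3 : ∏ j ∈ Finset.range (10 * v + 19),
        (((40 * (v + 2) : ℕ) : ℝ) - 2 * ((8 * (v + 2) + 3 : ℕ) : ℝ) - i - j) =
        ∏ j ∈ Finset.range (10 * v + 19), (((24 * v + 42 - i : ℕ) : ℝ) - j) := by
      refine Finset.prod_congr rfl fun j _ => ?_
      rw [Nat.cast_sub (by omega)]
      push_cast
      ring
    rw [e3]
    have hpos : 0 < ∏ j ∈ Finset.range (10 * v + 19), (((24 * v + 42 - i : ℕ) : ℝ) - j) := by
      refine Finset.prod_pos fun j hj => ?_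
      rw [Finset.mem_range] at hj
      have : j < 24 * v + 42 - i := by omega
      have : (j : ℝ) < ((24 * v + 42 - i : ℕ) : ℝ) := by exact_mod_cast this
      linarith
    positivity

lemma log_hundred : (46 : ℝ) / 10 ≤ Real.log 100 := by
  have l2a := Real.log_two_gt_d9
  have h := le_log_of_pow (x := 100) (k := 14) (m := 93) (by norm_num) (by norm_num)
  push_cast at h
  linarith

/-- the function of `n` which bounds the logarithm -/
noncomputable def U (n : ℝ) : ℝ :=
  5 / 2 * (n * (2 * n * Real.log 2 + 2 * n * Real.log n - 2 * n)) -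
    n ^ 2 * (23 / 100 + 1 / 5 * Real.log n) +
    2 * (T (9 / 5) 1 n - T (4 / 5) 2 n) - 2 * (T (16 / 5) (-4) n - T (11 / 5) (-3) n) +
    2 * T 1 (-1) n - (T (12 / 5) (-6) n - T (7 / 5) (-5) n) +
    (T (7 / 5) (-4) n - T (2 / 5) (-3) n) + (16 * n * Real.log (4 * n) + 8 * n)

lemma bound (v : ℕ) : 5 / 2 * (10 * ((v + 2 : ℕ) : ℝ) - 1) *
      Real.log ((20 * (v + 2)).factorial : ℝ) -
      1 / 2 * (10 * ((v + 2 : ℕ) : ℝ) - 1) * Real.log (Mg (v + 2)) +
      Real.log (Dcl (40 * (v + 2)) (8 * (v + 2) + 3) (10 * (v + 2) - 1)) ≤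
    U (10 * ((v + 2 : ℕ) : ℝ)) := by
  have hMg : Real.log (Mg (v + 2)) = 1 / 10 * (10 * ((v + 2 : ℕ) : ℝ)) *
      (4 * Real.log (10 * ((v + 2 : ℕ) : ℝ)) + Real.log 100) := by
    unfold Mg
    have h0 : (0 : ℝ) < ((v + 2 : ℕ) : ℝ) := by positivity
    rw [Real.log_pow, Real.log_mul (by positivity) (by norm_num), Real.log_pow]
    push_cast
    ring
  rw [log_Dcl, hMg]
  set n : ℝ := 10 * ((v + 2 : ℕ) : ℝ) with hn
  have hv : (0 : ℝ) ≤ v := Nat.cast_nonneg v
  have hn20 : 20 ≤ n := by rw [hn]; push_cast; linarith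
  set L : ℝ := Real.log (4 * n) with hL
  have hL0 : 0 ≤ L := Real.log_nonneg (by linarith)
  have hlog : ∀ k : ℕ, k + 1 ≤ 40 * v + 80 → Real.log ((k : ℝ) + 1) ≤ L := by
    intro k hk
    refine Real.log_le_log (by positivity) ?_
    have : ((k + 1 : ℕ) : ℝ) ≤ ((40 * v + 80 : ℕ) : ℝ) := by exact_mod_cast hk
    push_cast at this
    rw [hn]
    push_cast
    linarith
  have hterm : ∀ i ∈ Finset.range (10 * v + 19),
      (2 * Real.log ((8 * v + 18 + i).factorial : ℝ) -
      2 * Real.log ((32 * v + 60 - i).factorial : ℝ) + 2 * Real.log (i.factorial : ℝ) -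
      Real.log ((24 * v + 42 - i).factorial : ℝ) + Real.log ((14 * v + 23 - i).factorial : ℝ)) ≤
      2 * ph ((8 * v + 18 + i : ℕ) : ℝ) - 2 * ph ((32 * v + 60 - i : ℕ) : ℝ) +
      2 * ph ((0 + i : ℕ) : ℝ) -
      ph ((24 * v + 42 - i : ℕ) : ℝ) + ph ((14 * v + 23 - i : ℕ) : ℝ) + 10 * L := by
    intro i hi
    rw [Finset.mem_range] at hi
    have q1 := le_ph (8 * v + 18 + i)
    have q2 := ph_le (32 * v + 60 - i)
    have q3 := le_ph i
    have q4 := ph_le (24 * v + 42 - i)
    have q5 := le_ph (14 * v + 23 - i)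
    have r1 := hlog (8 * v + 18 + i) (by omega)
    have r3 := hlog i (by omega)
    have r5 := hlog (14 * v + 23 - i) (by omega)
    rw [zero_add]
    linarith
  have hsum := Finset.sum_le_sum hterm
  have hN : (((10 * v + 19 : ℕ) : ℝ)) = n - 1 := by rw [hn]; push_cast; ring
  have s1 := up (8 * v + 18) (10 * v + 19)
  have s2 := lo (22 * v + 41) (10 * v + 19)
  have s3 := up 0 (10 * v + 19)
  have s4 := lo (14 * v + 23) (10 * v + 19)
  have s5 := up (4 * v + 5) (10 * v + 19)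
  have t2 : ∑ i ∈ Finset.range (10 * v + 19), ph ((32 * v + 60 - i : ℕ) : ℝ) =
      ∑ i ∈ Finset.range (10 * v + 19), ph ((22 * v + 41 + i + 1 : ℕ) : ℝ) := by
    rw [refl_sum (32 * v + 60) (10 * v + 19) (by omega) (fun k => ph (k : ℝ))]
    refine Finset.sum_congr rfl fun i _ => ?_
    congr 2
    omega
  have t4 : ∑ i ∈ Finset.range (10 * v + 19), ph ((24 * v + 42 - i : ℕ) : ℝ) =
      ∑ i ∈ Finset.range (10 * v + 19), ph ((14 * v + 23 + i + 1 : ℕ) : ℝ) := by
    rw [refl_sum (24 * v + 42) (10 * v + 19) (by omega) (fun k => ph (k : ℝ))]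
    refine Finset.sum_congr rfl fun i _ => ?_
    congr 2
    omega
  have t5 : ∑ i ∈ Finset.range (10 * v + 19), ph ((14 * v + 23 - i : ℕ) : ℝ) =
      ∑ i ∈ Finset.range (10 * v + 19), ph ((4 * v + 5 + i : ℕ) : ℝ) := by
    rw [refl_sum (14 * v + 23) (10 * v + 19) (by omega) (fun k => ph (k : ℝ))]
    refine Finset.sum_congr rfl fun i _ => ?_
    congr 2
    omega
  simp only [Finset.sum_add_distrib, Finset.sum_sub_distrib, ← Finset.mul_sum, t2, t4, t5,
    Finset.sum_const, Finset.card_range, nsmul_eq_mul] at hsum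
  have hG0 : G2 0 = 0 := by simp [G2]
  have u1 : ((8 * v + 18 + (10 * v + 19) : ℕ) : ℝ) = 9 / 5 * n + 1 := by
    rw [hn]; push_cast; ring
  have u1' : ((8 * v + 18 : ℕ) : ℝ) = 4 / 5 * n + 2 := by rw [hn]; push_cast; ring
  have u2 : ((22 * v + 41 + (10 * v + 19) : ℕ) : ℝ) = 16 / 5 * n + -4 := by
    rw [hn]; push_cast; ring
  have u2' : ((22 * v + 41 : ℕ) : ℝ) = 11 / 5 * n + -3 := by rw [hn]; push_cast; ring
  have u3 : ((0 + (10 * v + 19) : ℕ) : ℝ) = 1 * n + -1 := by rw [hn]; push_cast; ring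
  have u4 : ((14 * v + 23 + (10 * v + 19) : ℕ) : ℝ) = 12 / 5 * n + -6 := by
    rw [hn]; push_cast; ring
  have u4' : ((14 * v + 23 : ℕ) : ℝ) = 7 / 5 * n + -5 := by rw [hn]; push_cast; ring
  have u5 : ((4 * v + 5 + (10 * v + 19) : ℕ) : ℝ) = 7 / 5 * n + -4 := by
    rw [hn]; push_cast; ring
  have u5' : ((4 * v + 5 : ℕ) : ℝ) = 2 / 5 * n + -3 := by rw [hn]; push_cast; ring
  rw [u1, u1', hN] at s1
  rw [u2, u2', hN] at s2
  rw [u3, hN, Nat.cast_zero, hG0] at s3
  rw [u4, u4', hN] at s4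
  rw [u5, u5', hN] at s5
  rw [hN] at hsum
  -- the first term
  have f1 := le_ph (20 * (v + 2))
  have f2 := hlog (20 * (v + 2)) (by omega)
  have f3 : ((20 * (v + 2) : ℕ) : ℝ) = 2 * n := by rw [hn]; push_cast; ring
  rw [f3] at f1 f2
  have f4 : ph (2 * n) = 2 * n * Real.log 2 + 2 * n * Real.log n - 2 * n := by
    unfold ph
    rw [Real.log_mul (by norm_num) (by linarith)]
    ring
  rw [f4] at f1
  have f5 : 0 ≤ Real.log ((20 * (v + 2)).factorial : ℝ) :=
    Real.log_nonneg (by exact_mod_cast Nat.one_le_iff_ne_zero.mpr (Nat.factorial_ne_zero _))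
  have f6 : 5 / 2 * (n - 1) * Real.log ((20 * (v + 2)).factorial : ℝ) ≤
      5 / 2 * (n * (2 * n * Real.log 2 + 2 * n * Real.log n - 2 * n)) + 5 * n * L := by
    calc 5 / 2 * (n - 1) * Real.log ((20 * (v + 2)).factorial : ℝ) ≤
          5 / 2 * n * Real.log ((20 * (v + 2)).factorial : ℝ) :=
          mul_le_mul_of_nonneg_right (by linarith) f5
      _ ≤ 5 / 2 * n * (2 * n * Real.log 2 + 2 * n * Real.log n - 2 * n + 2 * L) :=
          mul_le_mul_of_nonneg_left (by linarith) (by linarith)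
      _ = _ := by ring
  have f7 : (n - 1) * (10 * L) ≤ 10 * n * L := by nlinarith
  have f8 : 0 ≤ n * L := mul_nonneg (by linarith) hL0
  -- the gain
  have hlogn : Real.log n ≤ L := Real.log_le_log (by linarith) (by linarith)
  have hlogn0 : 0 ≤ Real.log n := Real.log_nonneg (by linarith)
  have h100 := log_hundred
  have g1 : n ^ 2 * (23 / 100 + 1 / 5 * Real.log n) ≤
      1 / 2 * (n - 1) * (1 / 10 * n * (4 * Real.log n + Real.log 100)) + 1 / 5 * n * L + 1 / 4 * n := by
    have g2 : 1 / 2 * (n - 1) * (1 / 10 * n * (4 * Real.log n + 46 / 10)) ≤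
        1 / 2 * (n - 1) * (1 / 10 * n * (4 * Real.log n + Real.log 100)) := by
      apply mul_le_mul_of_nonneg_left _ (by linarith)
      apply mul_le_mul_of_nonneg_left _ (by linarith)
      linarith
    have g3 : n * Real.log n ≤ n * L := mul_le_mul_of_nonneg_left hlogn (by linarith)
    nlinarith
  have hL1 : 1 ≤ L := by
    rw [hL, Real.le_log_iff_exp_le (by linarith)]
    linarith [Real.exp_one_lt_d9]
  have f9 : n ≤ n * L := by nlinarith
  unfold U T
  rw [← hL]
  simp only [Finset.sum_add_distrib, Finset.sum_sub_distrib, ← Finset.mul_sum]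
  linarith

lemma U_lim : Tendsto (fun n : ℝ => U n / n ^ 2 - 2 * Real.log n) atTop (𝓝 a1) := by
  have h := (((((T_lim (9 / 5) 1 (by norm_num)).sub (T_lim (4 / 5) 2 (by norm_num))).const_mul 2).sub
    (((T_lim (16 / 5) (-4) (by norm_num)).sub (T_lim (11 / 5) (-3) (by norm_num))).const_mul 2)).add
    ((T_lim 1 (-1) (by norm_num)).const_mul 2)).sub
    ((T_lim (12 / 5) (-6) (by norm_num)).sub (T_lim (7 / 5) (-5) (by norm_num)))
  have h2 := ((h.add ((T_lim (7 / 5) (-4) (by norm_num)).sub (T_lim (2 / 5) (-3) (by norm_num)))).add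
    log4_lim).add (tendsto_const_nhds (x := 5 / 2 * (2 * Real.log 2 - 2) - 23 / 100))
  have hG1 : G2 1 = -3 / 4 := by norm_num [G2]
  have e : 2 * (G2 (9 / 5) - G2 (4 / 5)) - 2 * (G2 (16 / 5) - G2 (11 / 5)) + 2 * G2 1 -
      (G2 (12 / 5) - G2 (7 / 5)) + (G2 (7 / 5) - G2 (2 / 5)) + 0 +
      (5 / 2 * (2 * Real.log 2 - 2) - 23 / 100) = a1 := by
    rw [hG1]
    unfold a1
    ring
  rw [e] at h2
  refine h2.congr' ?_
  filter_upwards [eventually_gt_atTop 0] with n hn0
  unfold U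
  field_simp
  ring

end ASY5_

open ASY5_

theorem ASY5 : S_ASY5 := by
  intro ε hε
  have h1 : Tendsto (fun ν : ℕ => 10 * (ν : ℝ)) atTop atTop :=
    tendsto_natCast_atTop_atTop.const_mul_atTop (by norm_num)
  have h2 := (U_lim.comp h1).eventually (gt_mem_nhds (lt_add_of_pos_right a1 hε))
  filter_upwards [h2, eventually_ge_atTop 2] with ν hν hν2
  obtain ⟨v, rfl⟩ := Nat.exists_eq_add_of_le' hν2
  refine (bound v).trans ?_
  simp only [Function.comp_apply] at hν
  have hn : (0 : ℝ) < 10 * ((v + 2 : ℕ) : ℝ) := by positivity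
  generalize (10 : ℝ) * ((v + 2 : ℕ) : ℝ) = n at hν hn
  have hn2 : 0 < n ^ 2 := by positivity
  have h3 : U n / n ^ 2 < 2 * Real.log n + a1 + ε := by linarith
  rw [div_lt_iff₀ hn2] at h3
  linarith

end Pool.Agent.H83.W35
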