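import Pool.Agent.H83.W35.Stm
import Pool.Graph.R_pool_sql_team_seeded_63374d34.N334.W.DOM

/-!
# Domination of the weight by the classical weight, with a gain
-/

set_option autoImplicit false

open Finset

namespace Pool.Agent.H83.W35

open Pool.Agent.N334.W

lemma log_le_of_pow {x : ℝ} (hx : 0 < x) {k m : ℕ} (hk : 0 < k) (h : x ^ k ≤ 2 ^ m) :
    Real.log x ≤ (m : ℝ) / k * Real.log 2 := by
  have hk' : (0 : ℝ) < k := by exact_mod_cast hk
  have h1 := Real.log_le_log (pow_pos hx k) h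
  rw [Real.log_pow, Real.log_pow] at h1
  rw [div_mul_eq_mul_div, le_div_iff₀ hk']
  linarith

lemma le_log_of_pow {x : ℝ} {k m : ℕ} (hk : 0 < k) (h : (2 : ℝ) ^ m ≤ x ^ k) :
    (m : ℝ) / k * Real.log 2 ≤ Real.log x := by
  have hk' : (0 : ℝ) < k := by exact_mod_cast hk
  have h1 := Real.log_le_log (by positivity) h
  rw [Real.log_pow, Real.log_pow] at h1
  rw [div_mul_eq_mul_div, div_le_iff₀ hk']
  linarith

/-- `log` of the symmetric products -/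
lemma log_domQ (c : ℕ) (t : ℝ) (ht : 0 ≤ t) (m : ℕ) (hm : m < c) :
    Real.log (domQ c t m) = Real.log (t + c) +
      ∑ u ∈ Finset.range m, Real.log ((t + c) ^ 2 - ((u : ℝ) + 1) ^ 2) := by
  induction m with
  | zero => rw [domQ_zero, Finset.sum_range_zero, add_zero]
  | succ m ih =>
    have h1 : (m : ℝ) + 1 + 1 ≤ c := by exact_mod_cast hm
    have h0 : (0 : ℝ) ≤ m := by positivity
    rw [domQ_succ c t m (by omega), Real.log_mul (domQ_pos c t ht m (by omega)).ne'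
      (mul_pos (by linarith) (by linarith)).ne', ih (by omega), Finset.sum_range_succ, add_assoc]
    congr 3
    ring

/-- sums of squares, lower bound -/
lemma sq_lower (a : ℝ) (ha : 0 ≤ a) (m : ℕ) :
    (m : ℝ) * (a + m / 2) ^ 2 ≤ ∑ i ∈ Finset.range m, (a + i + 1) ^ 2 := by
  induction m with
  | zero => simp
  | succ m ih =>
    rw [Finset.sum_range_succ]
    have h0 : (0 : ℝ) ≤ m := by positivity
    push_cast
    nlinarith [mul_nonneg ha h0, mul_nonneg h0 h0]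

/-- sums of squares, upper bound -/
lemma sq_upper (m : ℕ) (hm : 1 ≤ m) :
    ∑ i ∈ Finset.range m, ((i : ℝ) + 1) ^ 2 ≤ (m : ℝ) ^ 2 * ((m : ℝ) / 3 + 2 / 3) := by
  have h : ∀ k : ℕ, ∑ i ∈ Finset.range k, ((i : ℝ) + 1) ^ 2 = (k : ℝ) * (k + 1) * (2 * k + 1) / 6 := by
    intro k
    induction k with
    | zero => simp
    | succ k ih =>
      rw [Finset.sum_range_succ, ih]
      push_cast
      ring
  rw [h]
  have h1 : (1 : ℝ) ≤ m := by exact_mod_cast hm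
  nlinarith [mul_nonneg (by linarith : (0 : ℝ) ≤ m) (by linarith : (0 : ℝ) ≤ (m : ℝ) - 1)]

/-- upper bound for the product over `(10ν, 12ν]` -/
lemma E_le (ν : ℕ) (hν : 1 ≤ ν) (x : ℝ) (hx : 20 * (ν : ℝ) ≤ x) :
    ∑ i ∈ Finset.range (2 * ν), Real.log (x ^ 2 - (((10 * ν + i : ℕ) : ℝ) + 1) ^ 2) ≤
      2 * ν * Real.log (x ^ 2 - 121 * (ν : ℝ) ^ 2) := by
  have hν1 : (1 : ℝ) ≤ ν := by exact_mod_cast hν
  have hx2 : 400 * (ν : ℝ) ^ 2 ≤ x ^ 2 := by nlinarith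
  have hν2 : (1 : ℝ) ≤ (ν : ℝ) ^ 2 := by nlinarith
  obtain ⟨y0, hy0⟩ : ∃ y0, y0 = x ^ 2 - 121 * (ν : ℝ) ^ 2 := ⟨_, rfl⟩
  have hy0p : 0 < y0 := by rw [hy0]; nlinarith
  have h1 : ∀ i ∈ Finset.range (2 * ν), Real.log (x ^ 2 - (((10 * ν + i : ℕ) : ℝ) + 1) ^ 2) ≤
      Real.log y0 + (121 * (ν : ℝ) ^ 2 - (10 * (ν : ℝ) + i + 1) ^ 2) / y0 := by
    intro i hi
    rw [Finset.mem_range] at hi
    have hi' : (i : ℝ) + 1 ≤ 2 * ν := by exact_mod_cast hi
    have hi0 : (0 : ℝ) ≤ i := by positivity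
    have e : (((10 * ν + i : ℕ) : ℝ) + 1) = 10 * (ν : ℝ) + i + 1 := by push_cast; ring
    rw [e]
    obtain ⟨y, hy⟩ : ∃ y, y = x ^ 2 - (10 * (ν : ℝ) + i + 1) ^ 2 := ⟨_, rfl⟩
    have hyp : 0 < y := by rw [hy]; nlinarith
    rw [← hy]
    have h2 := Real.log_le_sub_one_of_pos (div_pos hyp hy0p)
    rw [Real.log_div hyp.ne' hy0p.ne'] at h2
    have h3 : y / y0 - 1 = (121 * (ν : ℝ) ^ 2 - (10 * (ν : ℝ) + i + 1) ^ 2) / y0 := by
      rw [div_sub_one hy0p.ne']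
      congr 1
      rw [hy, hy0]
      ring
    linarith
  refine (Finset.sum_le_sum h1).trans ?_
  rw [Finset.sum_add_distrib, Finset.sum_const, Finset.card_range, nsmul_eq_mul, ← Finset.sum_div,
    Finset.sum_sub_distrib, Finset.sum_const, Finset.card_range, nsmul_eq_mul]
  have h4 := sq_lower (10 * (ν : ℝ)) (by positivity) (2 * ν)
  have h5 : ((2 * ν : ℕ) : ℝ) * (10 * (ν : ℝ) + ((2 * ν : ℕ) : ℝ) / 2) ^ 2 =
      ((2 * ν : ℕ) : ℝ) * (121 * (ν : ℝ) ^ 2) := by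
    push_cast
    ring
  rw [h5] at h4
  have h6 : (((2 * ν : ℕ) : ℝ) * (121 * (ν : ℝ) ^ 2) -
      ∑ i ∈ Finset.range (2 * ν), (10 * (ν : ℝ) + i + 1) ^ 2) / y0 ≤ 0 :=
    div_nonpos_of_nonpos_of_nonneg (by linarith) hy0p.le
  rw [← hy0]
  push_cast at h6 ⊢
  linarith

/-- concavity of the logarithm -/
lemma log_conc {x y a b : ℝ} (hx : 0 < x) (hy : 0 < y) (ha : 0 ≤ a) (hb : 0 ≤ b) (hab : a + b = 1) :
    a * Real.log x + b * Real.log y ≤ Real.log (a * x + b * y) :=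
  strictConcaveOn_log_Ioi.concaveOn.2 (Set.mem_Ioi.2 hx) (Set.mem_Ioi.2 hy) ha hb hab

/-- lower bound for the product over `[1, N]` -/
lemma P_ge (N : ℕ) (hN : 1 ≤ N) (x : ℝ) (hx : 2 * (N : ℝ) ≤ x) :
    (N : ℝ) * Real.log (x ^ 2) - ((N : ℝ) / 3) * (Real.log (x ^ 2) - Real.log (x ^ 2 - (N : ℝ) ^ 2)) - 2 / 9 ≤
      ∑ i ∈ Finset.range N, Real.log (x ^ 2 - ((i : ℝ) + 1) ^ 2) := by
  have hN1 : (1 : ℝ) ≤ N := by exact_mod_cast hN
  have hx0 : 0 < x := by linarith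
  have hx2 : 4 * (N : ℝ) ^ 2 ≤ x ^ 2 := by nlinarith
  have hN2 : (1 : ℝ) ≤ (N : ℝ) ^ 2 := by nlinarith
  have hX : 0 < x ^ 2 := by positivity
  have hY : 0 < x ^ 2 - (N : ℝ) ^ 2 := by linarith
  obtain ⟨D, hD⟩ : ∃ D, D = Real.log (x ^ 2) - Real.log (x ^ 2 - (N : ℝ) ^ 2) := ⟨_, rfl⟩
  have hD0 : 0 ≤ D := by
    rw [hD]
    have := Real.log_le_log hY (by linarith : x ^ 2 - (N : ℝ) ^ 2 ≤ x ^ 2)
    linarith
  have hD1 : D ≤ 1 / 3 := by
    rw [hD, ← Real.log_div hX.ne' hY.ne']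
    refine (Real.log_le_sub_one_of_pos (by positivity)).trans ?_
    rw [div_sub_one hY.ne', div_le_iff₀ hY]
    linarith
  have h1 : ∀ i ∈ Finset.range N, Real.log (x ^ 2) - ((i : ℝ) + 1) ^ 2 * (D / (N : ℝ) ^ 2) ≤
      Real.log (x ^ 2 - ((i : ℝ) + 1) ^ 2) := by
    intro i hi
    rw [Finset.mem_range] at hi
    have hi' : (i : ℝ) + 1 ≤ N := by exact_mod_cast hi
    have hi0 : (0 : ℝ) ≤ i := by positivity
    have h2 := log_conc (a := 1 - ((i : ℝ) + 1) ^ 2 / (N : ℝ) ^ 2) (b := ((i : ℝ) + 1) ^ 2 / (N : ℝ) ^ 2) hX hY (by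
        rw [sub_nonneg, div_le_one (by positivity)]
        nlinarith) (by positivity) (by ring)
    have h3 : (1 - ((i : ℝ) + 1) ^ 2 / (N : ℝ) ^ 2) * x ^ 2 +
        ((i : ℝ) + 1) ^ 2 / (N : ℝ) ^ 2 * (x ^ 2 - (N : ℝ) ^ 2) = x ^ 2 - ((i : ℝ) + 1) ^ 2 := by
      field_simp
      ring
    rw [h3] at h2
    refine le_trans (le_of_eq ?_) h2
    rw [hD]
    ring
  refine le_trans ?_ (Finset.sum_le_sum h1)
  rw [Finset.sum_sub_distrib, Finset.sum_const, Finset.card_range, nsmul_eq_mul, ← Finset.sum_mul]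
  have h4 := sq_upper N hN
  have h5 : (∑ i ∈ Finset.range N, ((i : ℝ) + 1) ^ 2) * (D / (N : ℝ) ^ 2) ≤ ((N : ℝ) / 3 + 2 / 3) * D := by
    have h6 : 0 ≤ D / (N : ℝ) ^ 2 := by positivity
    calc _ ≤ (N : ℝ) ^ 2 * ((N : ℝ) / 3 + 2 / 3) * (D / (N : ℝ) ^ 2) := mul_le_mul_of_nonneg_right h4 h6
      _ = _ := by
        field_simp
  rw [← hD]
  nlinarith

/-- the numerical constant -/
lemma const_ge : Real.log 100 ≤
    20 / 3 * (73 / 100 * Real.log (100 / 73) + 27 / 100 * Real.log (121 / 27)) +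
    10 / 3 * (94 / 100 * Real.log (50 / 47) + 6 / 100 * Real.log (7 / 2)) := by
  have l2a := Real.log_two_gt_d9
  have l2b := Real.log_two_lt_d9
  have h1 : Real.log 100 ≤ ((20 : ℕ) : ℝ) / ((3 : ℕ) : ℝ) * Real.log 2 :=
    log_le_of_pow (by norm_num) (by norm_num) (by norm_num)
  have h2 : ((14 : ℕ) : ℝ) / ((31 : ℕ) : ℝ) * Real.log 2 ≤ Real.log (100 / 73) :=
    le_log_of_pow (by norm_num) (by norm_num)
  have h3 : ((54 : ℕ) : ℝ) / ((25 : ℕ) : ℝ) * Real.log 2 ≤ Real.log (121 / 27) :=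
    le_log_of_pow (by norm_num) (by norm_num)
  have h4 : ((4 : ℕ) : ℝ) / ((45 : ℕ) : ℝ) * Real.log 2 ≤ Real.log (50 / 47) :=
    le_log_of_pow (by norm_num) (by norm_num)
  have h5 : ((9 : ℕ) : ℝ) / ((5 : ℕ) : ℝ) * Real.log 2 ≤ Real.log (7 / 2) :=
    le_log_of_pow (by norm_num) (by norm_num)
  push_cast at h1 h2 h3 h4 h5
  linarith

/-- the inequality in one variable -/
lemma key_log (N v : ℝ) (hN : 1 ≤ N) (hv : 4 * N ^ 2 ≤ v) :
    8 * Real.log (v - 121 / 100 * N ^ 2) + Real.log 100 + 4 * Real.log N ≤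
      20 / 3 * Real.log v + 10 / 3 * Real.log (v - N ^ 2) := by
  have hN2 : 1 ≤ N ^ 2 := by nlinarith
  have hN0 : 0 < N := by linarith
  have hz : 0 < v - 121 / 100 * N ^ 2 := by linarith
  have e1 := log_conc (x := (v - 121 / 100 * N ^ 2) * (100 / 73)) (y := 121 / 27 * N ^ 2) (a := 73 / 100)
    (b := 27 / 100) (by positivity) (by positivity) (by norm_num) (by norm_num) (by norm_num)
  have e2 := log_conc (x := (v - 121 / 100 * N ^ 2) * (50 / 47)) (y := 7 / 2 * N ^ 2) (a := 94 / 100)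
    (b := 6 / 100) (by positivity) (by positivity) (by norm_num) (by norm_num) (by norm_num)
  have f1 : 73 / 100 * ((v - 121 / 100 * N ^ 2) * (100 / 73)) + 27 / 100 * (121 / 27 * N ^ 2) = v := by ring
  have f2 : 94 / 100 * ((v - 121 / 100 * N ^ 2) * (50 / 47)) + 6 / 100 * (7 / 2 * N ^ 2) = v - N ^ 2 := by ring
  rw [f1, Real.log_mul hz.ne' (by norm_num), Real.log_mul (by norm_num) (by positivity), Real.log_pow] at e1
  rw [f2, Real.log_mul hz.ne' (by norm_num), Real.log_mul (by norm_num) (by positivity), Real.log_pow] at e2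
  have hc := const_ge
  push_cast at e1 e2
  linarith

/-- comparison of the products over the two intervals -/
theorem dom_key5 (ν : ℕ) (hν : 2 ≤ ν) (t : ℝ) (ht : 0 ≤ t) :
    (domQ (20 * ν) t (12 * ν - 3)) ^ 4 * Mg ν * (t + 20 * ν) ^ 18 ≤
      Real.exp 9 * (domQ (20 * ν) t (10 * ν)) ^ 5 := by
  have hνR : (2 : ℝ) ≤ ν := by exact_mod_cast hν
  obtain ⟨x, hx⟩ : ∃ x : ℝ, x = t + 20 * ν := ⟨_, rfl⟩
  have hxc : t + ((20 * ν : ℕ) : ℝ) = x := by rw [hx]; push_cast; ring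
  have hx20 : 20 * (ν : ℝ) ≤ x := by rw [hx]; linarith
  have hx1 : 1 ≤ x := by linarith
  have hO := domQ_pos (20 * ν) t ht (12 * ν - 3) (by omega)
  have hP := domQ_pos (20 * ν) t ht (10 * ν) (by omega)
  have hM : 0 < Mg ν := by unfold Mg; positivity
  obtain ⟨LN, hLN⟩ : ∃ LN : ℝ, LN = Real.log (10 * ν) := ⟨_, rfl⟩
  have hM1 : Real.log (Mg ν) = ν * (4 * LN + Real.log 100) := by
    unfold Mg
    rw [Real.log_pow, Real.log_mul (by positivity) (by norm_num), Real.log_pow, hLN]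
    push_cast
    ring
  rw [← hx]
  rw [← Real.log_le_log_iff (by positivity) (by positivity), Real.log_mul (by positivity) (by positivity),
    Real.log_mul (by positivity) (by positivity), Real.log_pow, Real.log_pow, hM1,
    Real.log_mul (by positivity) (by positivity), Real.log_exp, Real.log_pow,
    log_domQ (20 * ν) t ht (12 * ν - 3) (by omega), log_domQ (20 * ν) t ht (10 * ν) (by omega), hxc]
  -- split the sum for O
  have hs : ∑ u ∈ Finset.range (12 * ν), Real.log (x ^ 2 - ((u : ℝ) + 1) ^ 2) =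
      ∑ u ∈ Finset.range (10 * ν), Real.log (x ^ 2 - ((u : ℝ) + 1) ^ 2) +
        ∑ i ∈ Finset.range (2 * ν), Real.log (x ^ 2 - (((10 * ν + i : ℕ) : ℝ) + 1) ^ 2) := by
    rw [show 12 * ν = 10 * ν + 2 * ν by ring, Finset.sum_range_add]
  have hs2 : ∑ u ∈ Finset.range (12 * ν), Real.log (x ^ 2 - ((u : ℝ) + 1) ^ 2) =
      ∑ u ∈ Finset.range (12 * ν - 3), Real.log (x ^ 2 - ((u : ℝ) + 1) ^ 2) +
        ∑ i ∈ Finset.range 3, Real.log (x ^ 2 - (((12 * ν - 3 + i : ℕ) : ℝ) + 1) ^ 2) := by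
    rw [← Finset.sum_range_add, show 12 * ν - 3 + 3 = 12 * ν by omega]
  have hlx : 0 ≤ Real.log x := Real.log_nonneg hx1
  have hs3 : 6 * Real.log x - 3 * Real.log 2 ≤
      ∑ i ∈ Finset.range 3, Real.log (x ^ 2 - (((12 * ν - 3 + i : ℕ) : ℝ) + 1) ^ 2) := by
    have h1 : ∀ i ∈ Finset.range 3, 2 * Real.log x - Real.log 2 ≤
        Real.log (x ^ 2 - (((12 * ν - 3 + i : ℕ) : ℝ) + 1) ^ 2) := by
      intro i hi
      rw [Finset.mem_range] at hi
      have h2 : (((12 * ν - 3 + i : ℕ) : ℝ) + 1) ≤ 12 * ν := by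
        exact_mod_cast (show 12 * ν - 3 + i + 1 ≤ 12 * ν by omega)
      have h3 : (0 : ℝ) ≤ (((12 * ν - 3 + i : ℕ) : ℝ) + 1) := by positivity
      have h4 : x ^ 2 / 2 ≤ x ^ 2 - (((12 * ν - 3 + i : ℕ) : ℝ) + 1) ^ 2 := by nlinarith
      have h5 := Real.log_le_log (by positivity) h4
      rw [Real.log_div (by positivity) (by norm_num), Real.log_pow] at h5
      push_cast at h5 ⊢
      linarith
    have h2 := Finset.sum_le_sum h1
    rw [Finset.sum_const, Finset.card_range, nsmul_eq_mul] at h2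
    push_cast at h2 ⊢
    linarith
  have hE := E_le ν (by omega) x hx20
  have hPg := P_ge (10 * ν) (by omega) x (by push_cast; linarith)
  have hk := key_log (10 * ν) (x ^ 2) (by linarith) (by nlinarith)
  have l2b := Real.log_two_lt_d9
  have hk2 := mul_le_mul_of_nonneg_left hk (by positivity : (0 : ℝ) ≤ ν)
  have e121 : 121 / 100 * (10 * (ν : ℝ)) ^ 2 = 121 * (ν : ℝ) ^ 2 := by ring
  rw [e121, ← hLN] at hk2
  push_cast at hPg hs hs2 hs3 hE ⊢
  obtain ⟨Z, hZ⟩ : ∃ Z, Z = Real.log (x ^ 2 - 121 * (ν : ℝ) ^ 2) := ⟨_, rfl⟩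
  obtain ⟨X, hX⟩ : ∃ X, X = Real.log (x ^ 2) := ⟨_, rfl⟩
  obtain ⟨Y, hY⟩ : ∃ Y, Y = Real.log (x ^ 2 - (10 * (ν : ℝ)) ^ 2) := ⟨_, rfl⟩
  rw [← hZ] at hE hk2
  rw [← hX, ← hY] at hPg hk2
  nlinarith

theorem DOM5 : S_DOM5 := by
  intro s h K hs hh hK
  refine ⟨K ^ 2 * 2 ^ (18 * s) * Real.exp 9 ^ s, by positivity, fun ν t hν => ?_⟩
  have hνR : (2 : ℝ) ≤ ν := by exact_mod_cast hν
  have ht0 : (0 : ℝ) ≤ t := by positivity
  obtain ⟨P, hP⟩ : ∃ P, P = domQ (20 * ν) t (10 * ν) := ⟨_, rfl⟩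
  obtain ⟨O, hO⟩ : ∃ O, O = domQ (20 * ν) t (12 * ν - 3) := ⟨_, rfl⟩
  obtain ⟨x, hx⟩ : ∃ x : ℝ, x = t + 20 * ν := ⟨_, rfl⟩
  obtain ⟨F, hF⟩ : ∃ F : ℝ, F = ((20 * ν).factorial : ℝ) := ⟨_, rfl⟩
  have hM : 0 < Mg ν := by unfold Mg; positivity
  have hF0 : 0 < F := by
    rw [hF]
    positivity
  have hP0 : 0 < P := by
    rw [hP]
    exact domQ_pos _ _ ht0 _ (by omega)
  have hO0 : 0 < O := by
    rw [hO]
    exact domQ_pos _ _ ht0 _ (by omega)
  have hx1 : 1 ≤ x := by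
    rw [hx]
    linarith
  have hkey : O ^ 4 * Mg ν * x ^ 18 ≤ Real.exp 9 * P ^ 5 := by
    rw [hO, hx, hP]
    exact dom_key5 ν hν t ht0
  have hRt : Rt h (10 * ν) t = (F / P) ^ h * (2 * t + 40 * ν) := by
    unfold Rt
    have e1 : ∏ k ∈ Finset.Icc (10 * ν) (3 * (10 * ν)), ((t : ℝ) + k) = P := by
      rw [hP]
      unfold domQ
      congr 2 <;> omega
    rw [e1, hF, show 2 * (10 * ν) = 20 * ν by omega, div_pow]
    push_cast
    ring
  have hw : wcl (40 * ν) (8 * ν + 3) t = (2 * t + 40 * ν) / O ^ 2 := by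
    unfold wcl
    have e1 : ∏ k ∈ Finset.Icc (8 * ν + 3) (40 * ν - (8 * ν + 3)), ((t : ℝ) + k) = O := by
      rw [hO]
      unfold domQ
      congr 2 <;> omega
    rw [e1]
    push_cast
    ring
  have hr : F / P ≤ r0 (10 * ν) := by
    unfold r0
    have e1 : ((10 * ν - 1).factorial : ℝ) * ∏ k ∈ Finset.Icc (10 * ν) (30 * ν), (k : ℝ) =
        ((30 * ν).factorial : ℝ) := by
      have e2 : (10 * ν - 1).factorial * ∏ k ∈ Finset.Icc (10 * ν) (30 * ν), k =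
          (30 * ν).factorial := by
        have e8 := dom_fact (10 * ν - 1) (20 * ν + 1)
        rwa [show 10 * ν - 1 + 1 = 10 * ν by omega, show 10 * ν - 1 + (20 * ν + 1) = 30 * ν by omega]
          at e8
      rw [← e2]
      push_cast
      rfl
    have e3 : ∏ k ∈ Finset.Icc (10 * ν) (30 * ν), (k : ℝ) ≤ P := by
      rw [hP]
      unfold domQ
      rw [show 20 * ν - 10 * ν = 10 * ν by omega, show 20 * ν + 10 * ν = 30 * ν by omega]
      exact Finset.prod_le_prod (fun k _ => by positivity) fun k _ => by linarith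
    have e4 : (0 : ℝ) < ∏ k ∈ Finset.Icc (10 * ν) (30 * ν), (k : ℝ) := by
      refine Finset.prod_pos fun k hk => ?_
      rw [Finset.mem_Icc] at hk
      exact_mod_cast (show 0 < k by omega)
    rw [show 3 * (10 * ν) = 30 * ν by omega, ← e1, hF, show 2 * (10 * ν) = 20 * ν by omega,
      mul_comm ((20 * ν).factorial : ℝ) ((10 * ν - 1).factorial : ℝ),
      mul_div_mul_left _ _ (by positivity)]
    exact div_le_div_of_nonneg_left (by positivity) e4 e3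
  have hq0 : 0 ≤ F / P := by positivity
  have e5 : 2 * h = (2 * h - 5 * s) + 5 * s := by omega
  have h1 : (K * Rt h (10 * ν) t * ((t : ℝ) + 40 * ν) ^ (6 * s + 2)) ^ 2 =
      K ^ 2 * ((F / P) ^ (2 * h - 5 * s) * (F / P) ^ (5 * s)) *
        ((2 * t + 40 * ν) ^ 2 * (t + 40 * ν) ^ (12 * s + 4)) := by
    rw [hRt, ← pow_add, ← e5]
    ring
  have h2 : (2 * (t : ℝ) + 40 * ν) ^ 2 * (t + 40 * ν) ^ (12 * s + 4) ≤
      2 ^ (18 * s) * x ^ (18 * s) := by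
    calc (2 * (t : ℝ) + 40 * ν) ^ 2 * (t + 40 * ν) ^ (12 * s + 4) ≤
          (2 * x) ^ 2 * (2 * x) ^ (12 * s + 4) := by
          gcongr
          · rw [hx]
            linarith
          · rw [hx]
            linarith
      _ = (2 * x) ^ (12 * s + 6) := by
          rw [← pow_add]
          congr 1
          omega
      _ ≤ (2 * x) ^ (18 * s) := by
          apply pow_le_pow_right₀ (by linarith)
          omega
      _ = _ := by rw [mul_pow]
  have h3 : (F / P) ^ (5 * s) * x ^ (18 * s) ≤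
      Real.exp 9 ^ s * (F ^ (5 * s) * (Mg ν)⁻¹ ^ s * (1 / O ^ 2) ^ (2 * s)) := by
    have e6 : (F / P) ^ (5 * s) * x ^ (18 * s) = (F ^ 5 * (x ^ 18 / P ^ 5)) ^ s := by
      rw [div_pow, mul_pow, div_pow, ← pow_mul, ← pow_mul, ← pow_mul]
      ring
    have e7 : Real.exp 9 ^ s * (F ^ (5 * s) * (Mg ν)⁻¹ ^ s * (1 / O ^ 2) ^ (2 * s)) =
        (F ^ 5 * (Real.exp 9 / (O ^ 4 * Mg ν))) ^ s := by
      have e8 : Real.exp 9 / (O ^ 4 * Mg ν) = Real.exp 9 * ((Mg ν)⁻¹ * (1 / O ^ 2) ^ 2) := by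
        field_simp
      rw [e8]
      simp only [mul_pow, ← pow_mul]
      ring
    rw [e6, e7]
    refine pow_le_pow_left₀ (by positivity) ?_ _
    refine mul_le_mul_of_nonneg_left ?_ (by positivity)
    rw [div_le_div_iff₀ (by positivity) (by positivity)]
    linarith
  have h4 : (1 / O ^ 2) ^ (2 * s) ≤ (wcl (40 * ν) (8 * ν + 3) t) ^ (2 * s) := by
    rw [hw]
    refine pow_le_pow_left₀ (by positivity) ?_ _
    refine div_le_div_of_nonneg_right ?_ (by positivity)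
    linarith
  have hr0 : 0 ≤ r0 (10 * ν) := hq0.trans hr
  rw [h1, ← hF]
  calc K ^ 2 * ((F / P) ^ (2 * h - 5 * s) * (F / P) ^ (5 * s)) *
        ((2 * t + 40 * ν) ^ 2 * (t + 40 * ν) ^ (12 * s + 4)) ≤
        K ^ 2 * (r0 (10 * ν) ^ (2 * h - 5 * s) * (F / P) ^ (5 * s)) *
        (2 ^ (18 * s) * x ^ (18 * s)) := by
        gcongr
    _ = K ^ 2 * 2 ^ (18 * s) * r0 (10 * ν) ^ (2 * h - 5 * s) *
        ((F / P) ^ (5 * s) * x ^ (18 * s)) := by ring
    _ ≤ K ^ 2 * 2 ^ (18 * s) * r0 (10 * ν) ^ (2 * h - 5 * s) *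
        (Real.exp 9 ^ s * (F ^ (5 * s) * (Mg ν)⁻¹ ^ s * (wcl (40 * ν) (8 * ν + 3) t) ^ (2 * s))) := by
        refine mul_le_mul_of_nonneg_left (h3.trans ?_) (by positivity)
        gcongr
    _ = _ := by ring

end Pool.Agent.H83.W35
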