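import Pool.Agent.H83.W35.DOM5
import Pool.Graph.R_pool_sql_team_seeded_63374d34.N334.W.NUM

/-!
# The final numerical inequality
-/

open Filter Topology

namespace Pool.Agent.H83.W35

open Pool.Agent.N334.W

noncomputable section

/-- numerical value of `a1` -/
lemma a1_lt : a1 < -(539 / 100) := by
  have l2a := Real.log_two_gt_d9
  have l2b := Real.log_two_lt_d9
  have h3 : Real.log 3 ≤ ((233 : ℕ) : ℝ) / ((147 : ℕ) : ℝ) * Real.log 2 :=
    log_le_of_pow (by norm_num) (by norm_num) (by norm_num)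
  have h5 : Real.log 5 ≤ ((137 : ℕ) : ℝ) / ((59 : ℕ) : ℝ) * Real.log 2 :=
    log_le_of_pow (by norm_num) (by norm_num) (by norm_num)
  have h7 : Real.log 7 ≤ ((73 : ℕ) : ℝ) / ((26 : ℕ) : ℝ) * Real.log 2 :=
    log_le_of_pow (by norm_num) (by norm_num) (by norm_num)
  have h11 : Real.log 11 ≤ ((128 : ℕ) : ℝ) / ((37 : ℕ) : ℝ) * Real.log 2 :=
    log_le_of_pow (by norm_num) (by norm_num) (by norm_num)
  have e1 : Real.log (9 / 5) = 2 * Real.log 3 - Real.log 5 := by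
    rw [Real.log_div (by norm_num) (by norm_num), show (9 : ℝ) = 3 ^ 2 by norm_num, Real.log_pow]
    push_cast; ring
  have e2 : Real.log (4 / 5) = 2 * Real.log 2 - Real.log 5 := by
    rw [Real.log_div (by norm_num) (by norm_num), show (4 : ℝ) = 2 ^ 2 by norm_num, Real.log_pow]
    push_cast; ring
  have e3 : Real.log (16 / 5) = 4 * Real.log 2 - Real.log 5 := by
    rw [Real.log_div (by norm_num) (by norm_num), show (16 : ℝ) = 2 ^ 4 by norm_num, Real.log_pow]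
    push_cast; ring
  have e4 : Real.log (11 / 5) = Real.log 11 - Real.log 5 := by
    rw [Real.log_div (by norm_num) (by norm_num)]
  have e5 : Real.log (12 / 5) = 2 * Real.log 2 + Real.log 3 - Real.log 5 := by
    rw [Real.log_div (by norm_num) (by norm_num), show (12 : ℝ) = 2 ^ 2 * 3 by norm_num,
      Real.log_mul (by norm_num) (by norm_num), Real.log_pow]
    push_cast; ring
  have e6 : Real.log (7 / 5) = Real.log 7 - Real.log 5 := by
    rw [Real.log_div (by norm_num) (by norm_num)]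
  have e7 : Real.log (2 / 5) = Real.log 2 - Real.log 5 := by
    rw [Real.log_div (by norm_num) (by norm_num)]
  unfold a1 G2
  rw [e1, e2, e3, e4, e5, e6, e7]
  push_cast at h3 h5 h7 h11
  linarith

theorem NUM5 : S_NUM5 := by
  intro s h C hs h1 h2
  set γ := Real.eulerMascheroniConstant with hγ
  have hγ2 : γ < 2 / 3 := Real.eulerMascheroniConstant_lt_two_thirds
  have hs' : (1 : ℝ) ≤ s := by exact_mod_cast hs
  have h1' : 5 * (s : ℝ) ≤ 2 * h := by exact_mod_cast h1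
  have h2' : (h : ℝ) ≤ 3 * s := by exact_mod_cast h2
  set κ := 3 * Real.log 3 - 2 * Real.log 2 with hκ
  have hκ1 : 19 / 10 < κ := NUMaux.kappa_gt
  have ha := a1_lt
  have l2a := Real.log_two_gt_d9
  set A : ℝ := (s : ℝ) ^ 2 * a1 - (s : ℝ) * (2 * h - 5 * (s : ℝ)) / 2 * κ -
    2 * (s : ℝ) ^ 2 * Real.log 2 + 2 * (s : ℝ) ^ 2 * γ + (h : ℝ) * s / 2 with hA
  -- the limit is negative
  have hL : A + C * 0 + 2 * (s : ℝ) ^ 2 * (1 - 0) + 2 * h * s * (1 - γ) +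
      (h : ℝ) ^ 2 / 2 * (γ - 0 / 2 - 1 / 2) < 0 := by
    have e1 : A + C * 0 + 2 * (s : ℝ) ^ 2 * (1 - 0) + 2 * h * s * (1 - γ) +
      (h : ℝ) ^ 2 / 2 * (γ - 0 / 2 - 1 / 2) =
      (s : ℝ) ^ 2 * (a1 - 2 * Real.log 2) - (s : ℝ) * (2 * h - 5 * (s : ℝ)) / 2 * κ +
        (h : ℝ) * s / 2 + 2 * (s : ℝ) ^ 2 + 2 * h * s - (h : ℝ) ^ 2 / 4 +
        ((h : ℝ) - 2 * s) ^ 2 / 2 * γ := by
      rw [hA]; ring
    rw [e1]
    have e2 : ((h : ℝ) - 2 * s) ^ 2 / 2 * γ ≤ ((h : ℝ) - 2 * s) ^ 2 / 2 * (2 / 3) :=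
      mul_le_mul_of_nonneg_left hγ2.le (by positivity)
    have e3 : (s : ℝ) * (2 * h - 5 * (s : ℝ)) / 2 * (19 / 10) ≤
        (s : ℝ) * (2 * h - 5 * (s : ℝ)) / 2 * κ := by
      apply mul_le_mul_of_nonneg_left hκ1.le
      have : 0 ≤ 2 * (h : ℝ) - 5 * (s : ℝ) := by linarith
      positivity
    have e4 : (s : ℝ) ^ 2 * (a1 - 2 * Real.log 2) ≤ (s : ℝ) ^ 2 * (-(539 / 100) - 2 * 0.6931) := by
      apply mul_le_mul_of_nonneg_left _ (by positivity)
      linarith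
    have hs2 : (1 : ℝ) ≤ (s : ℝ) ^ 2 := by nlinarith
    -- the convex quadratic
    have e5 : 0 ≤ (2 * (h : ℝ) - 5 * s) * (3 * s - h) := by
      apply mul_nonneg <;> linarith
    have e6 : 0 ≤ (2 * (h : ℝ) - 5 * s) * s := by
      apply mul_nonneg <;> linarith
    nlinarith
  have hD := NUMaux.tendsto_Hn
  have hE : Tendsto (fun J : ℕ => 1 / (J : ℝ)) atTop (𝓝 0) := tendsto_one_div_atTop_nhds_zero_nat
  have hlim : Tendsto (fun J : ℕ => A + C * (1 / (J : ℝ)) + 2 * (s : ℝ) ^ 2 * (1 - 1 / (J : ℝ)) +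
      2 * h * s * (1 - (Hn J - Real.log J)) +
      (h : ℝ) ^ 2 / 2 * ((Hn J - Real.log J) - (1 / (J : ℝ)) / 2 - 1 / 2)) atTop
      (𝓝 (A + C * 0 + 2 * (s : ℝ) ^ 2 * (1 - 0) + 2 * h * s * (1 - γ) +
      (h : ℝ) ^ 2 / 2 * (γ - 0 / 2 - 1 / 2))) := by
    apply Tendsto.add
    · apply Tendsto.add
      · apply Tendsto.add
        · exact tendsto_const_nhds.add (hE.const_mul C)
        · exact (tendsto_const_nhds.sub hE).const_mul _
      · exact (tendsto_const_nhds.sub hD).const_mul _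
    · exact ((hD.sub (hE.div_const 2)).sub tendsto_const_nhds).const_mul _
  have hev := hlim.eventually (gt_mem_nhds hL)
  obtain ⟨J, hJ, hJ1⟩ := (hev.and (eventually_ge_atTop 1)).exists
  refine ⟨J, hJ1, ?_⟩
  have hfin : (s : ℝ) ^ 2 * a1 - (s : ℝ) * (2 * h - 5 * (s : ℝ)) / 2 * κ -
    2 * (s : ℝ) ^ 2 * Real.log 2 + 2 * (s : ℝ) ^ 2 * Real.log J +
    2 * (s : ℝ) ^ 2 * γ + C / J + e0 s h J + (h : ℝ) * s / 2 =
    A + C * (1 / (J : ℝ)) + 2 * (s : ℝ) ^ 2 * (1 - 1 / (J : ℝ)) +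
      2 * h * s * (1 - (Hn J - Real.log J)) +
      (h : ℝ) ^ 2 / 2 * ((Hn J - Real.log J) - (1 / (J : ℝ)) / 2 - 1 / 2) := by
    unfold e0
    rw [NUMaux.Hn_pred hJ1, hA]
    ring
  rw [hfin]
  exact hJ

end

end Pool.Agent.H83.W35
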