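import Pool.Agent.H83.W35.AR5
import Pool.Agent.H83.W35.NUM5
import Pool.Graph.R_pool_sql_team_seeded_63374d34.N334.W.Main

/-! Assembly of the windows theorem of ratio 3.5. -/

open Polynomial Pool.Agent.H337R2 Filter Topology

namespace Pool.Agent.H83.W35

open Pool.Agent.N334.W

noncomputable section

theorem main5_of (hAR : S_AR5) (hNV : S_NV) (hLP : S_LP) (hEPB : S_EPB) (hSM : S_SM) (hSE : S_SE) (hSL : S_SL)
    (hSS : S_SS) (hNUM : S_NUM5) (b h : ℕ) (hb : Even b) (hb2 : 2 ≤ b) (hh : Even h) (h13 : 5 * (b + 1) ≤ 2 * h)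
    (h15 : h ≤ 3 * (b + 1)) : ∃ e, Odd e ∧ b + 3 ≤ e ∧ e < b + h ∧ Irrational (zr e) := by
  classical
  by_contra hcon
  push Not at hcon
  have hr : ∀ e, Odd e → b + 3 ≤ e → e < b + h → ∃ r : ℚ, (r : ℝ) = zr e := by
    intro e h1 h2 h3
    have h4 := hcon e h1 h2 h3
    unfold Irrational at h4
    rw [not_not] at h4
    obtain ⟨r, hr⟩ := h4
    exact ⟨r, hr⟩
  -- the rational numbers
  obtain ⟨u, hu, hu0⟩ : ∃ u : ℕ → ℚ, (∀ e, Odd e → b + 3 ≤ e → e < b + h → ((u e : ℚ) : ℝ) = zr e) ∧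
      ∀ e, b + h ≤ e → u e = 0 := by
    refine ⟨fun e => if hc : Odd e ∧ b + 3 ≤ e ∧ e < b + h then (hr e hc.1 hc.2.1 hc.2.2).choose else 0, ?_, ?_⟩
    · intro e h1 h2 h3
      have hc : Odd e ∧ b + 3 ≤ e ∧ e < b + h := ⟨h1, h2, h3⟩
      simp only [dif_pos hc]
      exact (hr e hc.1 hc.2.1 hc.2.2).choose_spec
    · intro e he
      have : ¬ (Odd e ∧ b + 3 ≤ e ∧ e < b + h) := by
        rintro ⟨_, _, h3⟩
        omega
      simp only [dif_neg this]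
  obtain ⟨q, hq⟩ : ∃ q : ℕ, UInt q u := by
    refine ⟨∏ e ∈ Finset.range (b + h), (u e).den, Finset.prod_pos fun e _ => (u e).den_pos, ?_⟩
    intro e
    by_cases he : e < b + h
    · refine ⟨(∏ e' ∈ (Finset.range (b + h)).erase e, ((u e').den : ℤ)) * (u e).num, ?_⟩
      rw [← Finset.mul_prod_erase (Finset.range (b + h)) (fun e => (u e).den) (Finset.mem_range.2 he)]
      push_cast
      have h1 : ((u e).den : ℚ) * u e = (u e).num := by
        rw [mul_comm]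
        exact Rat.mul_den_eq_num (u e)
      calc ((u e).den : ℚ) * (∏ x ∈ (Finset.range (b + h)).erase e, ((u x).den : ℚ)) * u e
          = (∏ x ∈ (Finset.range (b + h)).erase e, ((u x).den : ℚ)) * (((u e).den : ℚ) * u e) := by ring
        _ = _ := by rw [h1]
    · exact ⟨0, by rw [hu0 e (not_lt.1 he)]; simp⟩
  obtain ⟨C, hC⟩ := hSS b h
  obtain ⟨J, hJ, hT⟩ := hNUM (b + 1) h C (by omega) h13 h15
  obtain ⟨s, hs⟩ : ∃ s : ℝ, s = (b : ℝ) + 1 := ⟨_, rfl⟩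
  have hs2 : ((b + 1 : ℕ) : ℝ) = s := by rw [hs]; push_cast; ring
  rw [hs2] at hT
  obtain ⟨ρ, hρ⟩ : ∃ ρ : ℝ, ρ = 3 * Real.log 3 - 2 * Real.log 2 := ⟨_, rfl⟩
  rw [← hρ] at hT
  obtain ⟨δ, hδ⟩ : ∃ δ : ℝ, δ = -(s ^ 2 * a1 - s * (2 * h - 5 * s) / 2 * ρ -
    2 * s ^ 2 * Real.log 2 + 2 * s ^ 2 * Real.log J +
    2 * s ^ 2 * Real.eulerMascheroniConstant + C / J + e0 (b + 1) h J + h * s / 2) / 6 := ⟨_, rfl⟩
  have hδ0 : 0 < δ := by rw [hδ]; linarith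
  have hs1 : 1 ≤ s := by rw [hs]; linarith [(Nat.cast_nonneg b : (0 : ℝ) ≤ b)]
  have t10 : Tendsto (fun ν : ℕ => 10 * ν) atTop atTop := tendsto_id.const_mul_atTop' (by norm_num)
  have e1 := hAR b h hb hb2 hh h13 δ hδ0
  have e2 := t10.eventually (hSE b h J δ hJ hδ0)
  have e3 := t10.eventually (hSL b h δ hδ0)
  have e4 := t10.eventually (hC J δ hJ hδ0)
  have e5 : ∀ᶠ ν : ℕ in atTop, s * Real.log q ≤ δ * (10 * (ν : ℝ)) := by
    have h1 : Tendsto (fun ν : ℕ => δ * (10 * (ν : ℝ))) atTop atTop :=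
      (tendsto_natCast_atTop_atTop.const_mul_atTop (by norm_num : (0 : ℝ) < 10)).const_mul_atTop hδ0
    exact h1.eventually_ge_atTop _
  obtain ⟨ν0, hν0⟩ := eventually_atTop.1 (e1.and (e2.and (e3.and (e4.and (e5.and
    (eventually_ge_atTop (J ^ 2 + q + 2)))))))
  obtain ⟨p0, hp0, hp1, hp2⟩ := Nat.exists_prime_gt_modEq_one (k := 20) (20 * ν0 + 1) (by norm_num)
  obtain ⟨ν, hν⟩ : ∃ ν, p0 = 20 * ν + 1 := by
    have h1 : p0 % 20 = 1 := hp2
    exact ⟨p0 / 20, by omega⟩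
  obtain ⟨f1, f2, f3, f4, f5, f6⟩ := hν0 ν (by omega)
  have hJ1 : 1 ≤ J ^ 2 := one_le_pow₀ hJ
  have hpr : (2 * (10 * ν) + 1).Prime := by
    rw [show 2 * (10 * ν) + 1 = p0 by omega]
    exact hp0
  have hne : DET b h (10 * ν) u ((b + 1) * (10 * ν - 1)) ≠ 0 := by
    apply hNV b h (10 * ν) q u hb (by omega) hpr _ hq
    intro hd
    have := Nat.le_of_dvd hq.1 hd
    omega
  have g0 := prod_formula hLP hEPB hSM b h (10 * ν) q J u hb (by omega) (by omega) hJ (by omega) hq hne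
  rw [prod_log_Bf b h (10 * ν) J hJ (by omega)] at g0
  have g1 : Real.log |((DET b h (10 * ν) u ((b + 1) * (10 * ν - 1)) : ℚ) : ℝ)| ≤
      (10 * (ν : ℝ)) ^ 2 * (((b : ℝ) + 1) ^ 2 * (2 * Real.log (10 * (ν : ℝ)) + a1) -
        ((b : ℝ) + 1) * (2 * h - 5 * ((b : ℝ) + 1)) / 2 * (3 * Real.log 3 - 2 * Real.log 2) + δ) := by
    have h1 := f1 u hu
    have h2 : 0 < |((DET b h (10 * ν) u ((b + 1) * (10 * ν - 1)) : ℚ) : ℝ)| :=
      abs_pos.2 (by exact_mod_cast hne)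
    have h3 := Real.log_le_log h2 h1
    rwa [Real.log_exp] at h3
  obtain ⟨n, hn⟩ : ∃ n : ℝ, n = 10 * (ν : ℝ) := ⟨_, rfl⟩
  have hcast : (((10 * ν : ℕ)) : ℝ) = n := by rw [hn]; push_cast; ring
  rw [← hn, ← hs, ← hρ] at g1
  rw [hcast] at f2 f3 f4
  rw [← hs] at f3 f4
  rw [← hn] at f5
  have hn1 : 1 ≤ n := by
    rw [hn]
    have : (1 : ℝ) ≤ ν := by exact_mod_cast (by omega : 1 ≤ ν)
    linarith
  have hJ0 : (0 : ℝ) < J := by exact_mod_cast hJ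
  have g2 : (((b + 1) * (10 * ν - 1) : ℕ) : ℝ) * Real.log q ≤ n ^ 2 * δ := by
    have h1 : (((b + 1) * (10 * ν - 1) : ℕ) : ℝ) ≤ s * n := by
      rw [← hs2, ← hcast]
      exact_mod_cast Nat.mul_le_mul_left _ (by omega)
    have h2 : 0 ≤ Real.log q := Real.log_natCast_nonneg q
    have h3 := mul_le_mul_of_nonneg_right h1 h2
    have h4 := mul_le_mul_of_nonneg_left f5 (by linarith : 0 ≤ n)
    calc _ ≤ s * n * Real.log q := h3
      _ = n * (s * Real.log q) := by ring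
      _ ≤ n * (δ * n) := h4
      _ = _ := by ring
  have hlog : Real.log (2 * n / J) = Real.log 2 + Real.log n - Real.log J := by
    rw [Real.log_div (by positivity) hJ0.ne', Real.log_mul (by norm_num) (by linarith)]
  rw [hlog] at f4
  have f4' : ∑ p ∈ PS 0 (2 / J) (10 * ν), Real.log (Bs b h (10 * ν) p) ≤
      n ^ 2 * (-2 * s ^ 2 * (Real.log 2 + Real.log n - Real.log J - Real.eulerMascheroniConstant) +
      C / J + δ) := f4
  have htot : n ^ 2 * δ + n ^ 2 * (s ^ 2 * (2 * Real.log n + a1) - s * (2 * h - 5 * s) / 2 * ρ + δ) +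
      (n ^ 2 * (-2 * s ^ 2 * (Real.log 2 + Real.log n - Real.log J - Real.eulerMascheroniConstant) +
        C / J + δ) + n ^ 2 * (e0 (b + 1) h J + δ) + n ^ 2 * ((h : ℝ) * s / 2 + δ)) = -(n ^ 2 * δ) := by
    have h6 : -(6 * δ) = s ^ 2 * a1 - s * (2 * h - 5 * s) / 2 * ρ -
      2 * s ^ 2 * Real.log 2 + 2 * s ^ 2 * Real.log J +
      2 * s ^ 2 * Real.eulerMascheroniConstant + C / J + e0 (b + 1) h J + h * s / 2 := by
      rw [hδ]; ring
    have h7 : -(n ^ 2 * δ) = n ^ 2 * (5 * δ + (s ^ 2 * a1 - s * (2 * h - 5 * s) / 2 * ρ -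
      2 * s ^ 2 * Real.log 2 + 2 * s ^ 2 * Real.log J +
      2 * s ^ 2 * Real.eulerMascheroniConstant + C / J + e0 (b + 1) h J + h * s / 2)) := by
      rw [← h6]; ring
    rw [h7]
    ring
  have hfin : 0 < n ^ 2 * δ := by positivity
  linarith

/-- assembled: the even order `b = s - 1` -/
theorem main5 (b h : ℕ) (hb : Even b) (hb2 : 2 ≤ b) (hh : Even h) (h13 : 5 * (b + 1) ≤ 2 * h)
    (h15 : h ≤ 3 * (b + 1)) : ∃ e, Odd e ∧ b + 3 ≤ e ∧ e < b + h ∧ Irrational (zr e) :=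
  main5_of (AR5_of LF OM1 OM2 (ARCH_of AND GV PT RR) (CL_of CL1 CL2) DOM5 ASY5 R0) NV (LP_of (RED_of OM1) OMP GB)
    (EPB_of CBD GR GB) SM (SE_of thm_PN) (SL_of thm_PN) (SS_of ME) NUM5 b h hb hb2 hh h13 h15

/-- **The windows theorem of ratio 3.5.** -/
theorem windows5 (s : ℕ) (hs : Odd s) :
    ∃ j, Odd j ∧ s + 2 ≤ j ∧ 2 * j < 7 * s ∧ Irrational (zr j) := by
  obtain ⟨a, ha⟩ := hs
  rcases Nat.eq_zero_or_pos a with h0 | h0
  · exact ⟨3, by decide, by omega, by omega, Pool.Agent.Dim7.Z3_irr⟩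
  · -- `h = 2 g` is the smallest even number with `2 h ≥ 5 s`
    obtain ⟨g, hg1, hg2⟩ : ∃ g : ℕ, 5 * s ≤ 4 * g ∧ 4 * g < 5 * s + 4 :=
      ⟨(5 * s + 3) / 4, by omega, by omega⟩
    obtain ⟨e, he1, he2, he3, he4⟩ := main5 (2 * a) (2 * g) ⟨a, by ring⟩ (by omega) ⟨g, by ring⟩ (by omega) (by omega)
    refine ⟨e, he1, by omega, ?_, he4⟩
    obtain ⟨e', he'⟩ := he1
    omega

end

end Pool.Agent.H83.W35
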