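import Pool.Graph.R_pool_sql_team_seeded_63374d34.N334.W.Stm

/-!
# Windows of odd zeta values of ratio 3.5: statements of the new parts

The determinants and all arithmetical estimates are those of the library project `N334/W` (ratio 3.6). New is the
archimedean part: the weight is dominated by a classical weight whose poles are on a SHORTER interval
(`[8ν, 32ν]` in place of `[7.5ν, 32.5ν]`, `n = 10ν`), with an exponential gain.
-/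

open Polynomial Pool.Agent.H337R2 Filter Topology

namespace Pool.Agent.H83.W35

open Pool.Agent.N334.W

noncomputable section

/-- the gain of the domination (to the power `2 s`) -/
def Mg (ν : ℕ) : ℝ := ((10 * (ν : ℝ)) ^ 4 * 100) ^ ν

/-- the constant of the archimedean part -/
def a1 : ℝ := 2 * (G2 (9 / 5) - G2 (4 / 5) - G2 (16 / 5) + G2 (11 / 5)) - 3 / 2 -
  (G2 (12 / 5) - 2 * G2 (7 / 5) + G2 (2 / 5)) + 5 / 2 * (2 * Real.log 2 - 2) - 23 / 100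

/-- domination by the classical weight, with a gain -/
def S_DOM5 : Prop := ∀ (s h : ℕ) (K : ℝ), 1 ≤ s → 5 * s ≤ 2 * h → 0 < K →
  ∃ K' : ℝ, 0 < K' ∧ ∀ ν t : ℕ, 2 ≤ ν →
    (K * Rt h (10 * ν) t * ((t : ℝ) + 40 * ν) ^ (6 * s + 2)) ^ 2 ≤
      K' * r0 (10 * ν) ^ (2 * h - 5 * s) * ((20 * ν).factorial : ℝ) ^ (5 * s) * (Mg ν)⁻¹ ^ s *
        wcl (40 * ν) (8 * ν + 3) t ^ (2 * s)

/-- size of the classical determinant -/
def S_ASY5 : Prop := ∀ ε : ℝ, 0 < ε → ∀ᶠ ν : ℕ in atTop,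
  5 / 2 * (10 * (ν : ℝ) - 1) * Real.log ((20 * ν).factorial : ℝ) -
      1 / 2 * (10 * (ν : ℝ) - 1) * Real.log (Mg ν) +
    Real.log (Dcl (40 * ν) (8 * ν + 3) (10 * ν - 1)) ≤
      (10 * (ν : ℝ)) ^ 2 * (2 * Real.log (10 * (ν : ℝ)) + a1 + ε)

/-- the archimedean bound -/
def S_AR5 : Prop := ∀ b h : ℕ, Even b → 2 ≤ b → Even h → 5 * (b + 1) ≤ 2 * h → ∀ ε : ℝ, 0 < ε →
  ∀ᶠ ν : ℕ in atTop, ∀ u : ℕ → ℚ,
    (∀ e, Odd e → b + 3 ≤ e → e < b + h → ((u e : ℚ) : ℝ) = zr e) →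
    |((DET b h (10 * ν) u ((b + 1) * (10 * ν - 1)) : ℚ) : ℝ)| ≤
      Real.exp ((10 * (ν : ℝ)) ^ 2 * (((b : ℝ) + 1) ^ 2 * (2 * Real.log (10 * (ν : ℝ)) + a1) -
        ((b : ℝ) + 1) * (2 * h - 5 * ((b : ℝ) + 1)) / 2 * (3 * Real.log 3 - 2 * Real.log 2) + ε))

/-- the final numerical inequality -/
def S_NUM5 : Prop := ∀ (s h : ℕ) (C : ℝ), 1 ≤ s → 5 * s ≤ 2 * h → h ≤ 3 * s → ∃ J : ℕ, 1 ≤ J ∧
  (s : ℝ) ^ 2 * a1 - (s : ℝ) * (2 * h - 5 * (s : ℝ)) / 2 * (3 * Real.log 3 - 2 * Real.log 2) -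
    2 * (s : ℝ) ^ 2 * Real.log 2 + 2 * (s : ℝ) ^ 2 * Real.log J +
    2 * (s : ℝ) ^ 2 * Real.eulerMascheroniConstant + C / J + e0 s h J + (h : ℝ) * s / 2 < 0

end

end Pool.Agent.H83.W35
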